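import Mathlib

set_option autoImplicit false

/-!
# Completely deterministic multiplicative functions that are not pretentious

Let `U` be the closed unit disc. Every multiplicative `f : ℕ → U` with `f (n) → 0`, for instance the
completely multiplicative function `f (n) = 1 / n` without zeros, has exactly one Furstenberg system,
the point mass at the zero sequence. So it is completely deterministic for Cesàro averages. But it is
not pretentious, since `∑ 1 / p` diverges.
-/

namespace Pool.Agent.Results.MP_e30989_nt.VanishingFunctions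

open Filter MeasureTheory Topology Finset

/-- the closed unit disc -/
abbrev U : Type := Metric.closedBall (0 : ℂ) 1

/-- the sequence space -/
abbrev X : Type := ℤ → U

/-- the left shift -/
def shift (x : X) : X := fun n => x (n + 1)

/-- the zero of the disc -/
def zeroU : U := ⟨0, by simp⟩

/-- the zero sequence -/
def zeroX : X := fun _ => zeroU

/-- multiplicative functions on the positive integers with values in the disc (the value `f 0` plays
no role) -/
def IsMultiplicative (f : ℕ → U) : Prop :=
  (f 1 : ℂ) = 1 ∧ ∀ m n : ℕ, 0 < m → 0 < n → Nat.Coprime m n → (f (m * n) : ℂ) = f m * f n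

/-- completely multiplicative functions -/
def IsCompletelyMultiplicative (f : ℕ → U) : Prop :=
  (f 1 : ℂ) = 1 ∧ ∀ m n : ℕ, 0 < m → 0 < n → (f (m * n) : ℂ) = f m * f n

/-- pretentious: for some Dirichlet character `χ` and some real `t` the sum of the numbers
`(1 - Re (f (p) conj (χ (p)) p ^ (- i t))) / p ≥ 0` over the primes `p` converges -/
def Pretentious (f : ℕ → U) : Prop :=
  ∃ (q : ℕ) (_ : 0 < q) (χ : DirichletCharacter ℂ q) (t : ℝ), Summable (fun p : Nat.Primes =>
    (1 - ((f p : ℂ) * (starRingEnd ℂ) (χ ((p : ℕ) : ZMod q)) *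
      ((p : ℕ) : ℂ) ^ (-((t : ℂ) * Complex.I))).re) / ((p : ℕ) : ℝ))

/-- the point `x_f`: the extension of `f` by `0` to the integers `n ≤ 0` -/
noncomputable def point (f : ℕ → U) : X := fun n => if 0 < n then f n.toNat else zeroU

/-- `μ` is (the measure of) a Furstenberg system of `f` for Cesàro averages: it is a probability
measure which is the weak-* limit of the empirical measures of `x_f` along some `N_k → ∞` -/
def IsFurstenberg (f : ℕ → U) (μ : Measure X) : Prop :=
  IsProbabilityMeasure μ ∧ ∃ N : ℕ → ℕ, Tendsto N atTop atTop ∧ ∀ φ : C(X, ℝ),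
    Tendsto (fun k => (1 / (N k : ℝ)) * ∑ n ∈ Icc 1 (N k), φ (shift^[n] (point f))) atTop
      (𝓝 (∫ x, φ x ∂μ))

/-- the itinerary of `x` up to the time `n` with respect to the finite partition `π` -/
def word {k : ℕ} (π : X → Fin k) (n : ℕ) (x : X) : Fin n → Fin k := fun i => π (shift^[(i : ℕ)] x)

/-- the entropy of the join of the partitions `shift⁻ⁱ π`, `0 ≤ i < n` -/
noncomputable def joinEntropy {k : ℕ} (μ : Measure X) (π : X → Fin k) (n : ℕ) : ℝ :=
  ∑ w : Fin n → Fin k, Real.negMulLog (μ.real {x | word π n x = w})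

/-- the Kolmogorov–Sinai entropy of the shift: the supremum over the finite measurable partitions of
`lim (1 / n) H (⋁_{i < n} shift⁻ⁱ π)` -/
noncomputable def ksEntropy (μ : Measure X) : EReal :=
  ⨆ (k : ℕ) (π : X → Fin k) (_ : Measurable π),
    limsup (fun n : ℕ => ((joinEntropy μ π n / n : ℝ) : EReal)) atTop

/-- completely deterministic for Cesàro averages -/
def CompletelyDeterministic (f : ℕ → U) : Prop :=
  ∀ μ : Measure X, IsFurstenberg f μ → ksEntropy μ = 0

lemma continuous_shift : Continuous shift := continuous_pi fun n => continuous_apply (n + 1)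

lemma iterate_apply (n : ℕ) (x : X) (m : ℤ) : (shift^[n] x) m = x (m + n) := by
  induction n generalizing x with
  | zero => simp
  | succ n ih =>
    rw [Function.iterate_succ_apply, ih]
    unfold shift
    push_cast
    congr 1
    ring

/-- the orbit of `x_f` converges to the zero sequence -/
lemma orbit_tendsto {f : ℕ → U} (hf : Tendsto (fun n => (f n : ℂ)) atTop (𝓝 0)) :
    Tendsto (fun n : ℕ => shift^[n] (point f)) atTop (𝓝 zeroX) := by
  rw [tendsto_pi_nhds]
  intro m
  rw [tendsto_subtype_rng]
  show Tendsto (fun n : ℕ => ((shift^[n] (point f)) m : ℂ)) atTop (𝓝 0)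
  have h1 : Tendsto (fun n : ℕ => (m + n).toNat) atTop atTop := by
    rw [tendsto_atTop]
    intro b
    filter_upwards [eventually_ge_atTop (b + m.natAbs)] with n hn
    omega
  refine (hf.comp h1).congr' ?_
  filter_upwards [eventually_ge_atTop (m.natAbs + 1)] with n hn
  rw [iterate_apply]
  unfold point
  rw [if_pos (by omega)]
  rfl

lemma cesaro {f : ℕ → U} (hf : Tendsto (fun n => (f n : ℂ)) atTop (𝓝 0)) (φ : C(X, ℝ)) :
    Tendsto (fun N : ℕ => (1 / (N : ℝ)) * ∑ n ∈ Icc 1 N, φ (shift^[n] (point f))) atTop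
      (𝓝 (φ zeroX)) := by
  have h1 : Tendsto (fun n : ℕ => φ (shift^[n + 1] (point f))) atTop (𝓝 (φ zeroX)) :=
    ((φ.continuous.tendsto _).comp (orbit_tendsto hf)).comp (tendsto_add_atTop_nat 1)
  have h2 := h1.cesaro
  refine h2.congr fun N => ?_
  rw [one_div]
  congr 1
  induction N with
  | zero => simp
  | succ N ih => rw [sum_range_succ, Finset.sum_Icc_succ_top (by omega), ih]

lemma furstenberg_iff {f : ℕ → U} (hf : Tendsto (fun n => (f n : ℂ)) atTop (𝓝 0)) (μ : Measure X) :
    IsFurstenberg f μ ↔ μ = Measure.dirac zeroX := by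
  constructor
  · rintro ⟨hμ, N, hN, h⟩
    apply ext_of_forall_integral_eq_of_IsFiniteMeasure
    intro φ
    have h1 := h φ.toContinuousMap
    have h2 := (cesaro hf φ.toContinuousMap).comp hN
    have h3 := tendsto_nhds_unique h1 h2
    rw [integral_dirac]
    exact h3
  · rintro rfl
    refine ⟨inferInstance, id, tendsto_id, fun φ => ?_⟩
    rw [integral_dirac]
    exact cesaro hf φ

lemma ks_dirac : ksEntropy (Measure.dirac zeroX) = 0 := by
  have h0 : ∀ (k : ℕ) (π : X → Fin k), Measurable π → ∀ n : ℕ, joinEntropy (Measure.dirac zeroX) π n = 0 := by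
    intro k π hπ n
    unfold joinEntropy
    apply Finset.sum_eq_zero
    intro w _
    have hm : MeasurableSet {x : X | word π n x = w} := by
      have : Measurable (word π n) := by
        apply measurable_pi_lambda
        intro i
        exact hπ.comp (continuous_shift.iterate _).measurable
      exact this (measurableSet_singleton w)
    rw [Measure.real, Measure.dirac_apply' _ hm]
    by_cases h : zeroX ∈ {x : X | word π n x = w}
    · simp [Set.indicator_of_mem h]
    · simp [Set.indicator_of_notMem h]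
  unfold ksEntropy
  apply le_antisymm
  · refine iSup_le fun k => iSup_le fun π => iSup_le fun hπ => ?_
    simp only [h0 k π hπ, zero_div, EReal.coe_zero]
    exact (limsup_const _).le
  · refine le_iSup_of_le 1 (le_iSup_of_le (fun _ => 0) (le_iSup_of_le measurable_const ?_))
    simp only [h0 1 (fun _ => 0) measurable_const, zero_div, EReal.coe_zero]
    exact (limsup_const _).ge

lemma not_pretentious {f : ℕ → U} (hf : Tendsto (fun n => (f n : ℂ)) atTop (𝓝 0)) : ¬ Pretentious f := by
  rintro ⟨q, hq, χ, t, hs⟩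
  apply Nat.Primes.not_summable_one_div
  -- for all but finitely many primes the terms are at least `1 / (2 p)`
  have h1 : ∀ᶠ n : ℕ in atTop, ‖(f n : ℂ)‖ ≤ 1 / 2 := by
    have := hf.norm
    rw [norm_zero] at this
    exact (this.eventually (gt_mem_nhds (by norm_num : (0 : ℝ) < 1 / 2))).mono fun n hn => hn.le
  have h2 : ∀ᶠ p : Nat.Primes in cofinite, ‖(f p : ℂ)‖ ≤ 1 / 2 := by
    have h3 : Tendsto (fun p : Nat.Primes => (p : ℕ)) cofinite atTop := by
      rw [← Nat.cofinite_eq_atTop]
      exact Nat.Primes.coe_nat_injective.tendsto_cofinite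
    exact h3.eventually h1
  refine (hs.mul_left 2).of_norm_bounded_eventually ?_
  filter_upwards [h2] with p hp
  have hp0 : (0 : ℝ) < ((p : ℕ) : ℝ) := by exact_mod_cast p.2.pos
  rw [Real.norm_of_nonneg (by positivity)]
  have h4 : ((f p : ℂ) * (starRingEnd ℂ) (χ ((p : ℕ) : ZMod q)) *
      ((p : ℕ) : ℂ) ^ (-((t : ℂ) * Complex.I))).re ≤ 1 / 2 := by
    refine (Complex.re_le_norm _).trans ?_
    rw [norm_mul, norm_mul, RCLike.norm_conj]
    have h5 : ‖((p : ℕ) : ℂ) ^ (-((t : ℂ) * Complex.I))‖ = 1 := by
      rw [Complex.norm_natCast_cpow_of_pos p.2.pos]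
      simp
    rw [h5, mul_one]
    calc ‖(f p : ℂ)‖ * ‖χ ((p : ℕ) : ZMod q)‖ ≤ (1 / 2) * 1 :=
          mul_le_mul hp (DirichletCharacter.norm_le_one χ _) (norm_nonneg _) (by norm_num)
      _ = 1 / 2 := by norm_num
  rw [← mul_div_assoc, div_le_div_iff_of_pos_right hp0]
  linarith

/-- the function `1 / n` -/
noncomputable def recip (n : ℕ) : U := ⟨(1 / (n : ℂ)), by
  rw [mem_closedBall_zero_iff, norm_div, norm_one, Complex.norm_natCast]
  rcases Nat.eq_zero_or_pos n with h | h
  · simp [h]
  · have : (1 : ℝ) ≤ n := by exact_mod_cast h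
    rw [div_le_one (by linarith)]
    exact this⟩

/-- **Q1 is false as stated.** -/
theorem result :
    (∀ f : ℕ → U, IsMultiplicative f → Tendsto (fun n => (f n : ℂ)) atTop (𝓝 0) →
      ¬ Pretentious f ∧ CompletelyDeterministic f ∧
        ∀ μ : Measure X, IsFurstenberg f μ ↔ μ = Measure.dirac zeroX) ∧
    ∃ f : ℕ → U, IsMultiplicative f ∧ IsCompletelyMultiplicative f ∧
      (∀ n : ℕ, 0 < n → (f n : ℂ) = 1 / n) ∧ ¬ Pretentious f ∧ CompletelyDeterministic f := by
  have H : ∀ f : ℕ → U, Tendsto (fun n => (f n : ℂ)) atTop (𝓝 0) →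
      ¬ Pretentious f ∧ CompletelyDeterministic f ∧
        ∀ μ : Measure X, IsFurstenberg f μ ↔ μ = Measure.dirac zeroX := by
    intro f hf
    refine ⟨not_pretentious hf, fun μ hμ => ?_, furstenberg_iff hf⟩
    rw [(furstenberg_iff hf μ).1 hμ]
    exact ks_dirac
  refine ⟨fun f _ hf => H f hf, recip, ⟨by simp [recip], fun m n _ _ _ => ?_⟩,
    ⟨by simp [recip], fun m n _ _ => ?_⟩, fun n _ => rfl, ?_⟩
  · simp only [recip]; push_cast; rw [one_div_mul_one_div]
  · simp only [recip]; push_cast; rw [one_div_mul_one_div]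
  · have h : Tendsto (fun n => (recip n : ℂ)) atTop (𝓝 0) := by
      simp only [recip]
      exact tendsto_one_div_atTop_nhds_zero_nat
    exact ⟨(H _ h).1, (H _ h).2.1⟩

end Pool.Agent.Results.MP_e30989_nt.VanishingFunctions
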